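import Pool.Agent.Results.MP_e7cc07_co.LargeEdgesH47
import Pool.Agent.P8H23.OR.Two

/-!
# Orientation degree vectors: pairs, and complements of pairs

`f(n, r, p, 1) = C(n, p) - b(H(n, r), p)` for `p = 2` and for `p = r - 2`, for all `r ≥ 5` and all `n`.
The definitions (`Equality` and those which it uses) are those of the starting file
`MP_e7cc07_co.LargeEdgesH47`, where the equality is proved for all `r` larger than an unspecified bound
depending on `min (p, r - p)`.
-/

set_option autoImplicit false

namespace Pool.Agent.Results.MP_e7cc07_co.PairsInEdges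

open Pool.Agent.Results.MP_e7cc07_co.LargeEdgesH47 (Equality equality_of_edge)

/-- For all `r ≥ 5` and all `n` the equality `f(n, r, p, 1) = C(n, p) - b(H(n, r), p)` is true for
`p = 2` and for `p = r - 2`. -/
theorem result (r : ℕ) (hr : 5 ≤ r) (n : ℕ) : Equality n r 2 ∧ Equality n r (r - 2) :=
  ⟨equality_of_edge n (by omega) (by omega) (Pool.Agent.P8H23.OR.edge_two hr).1,
    equality_of_edge n (by omega) (by omega) (Pool.Agent.P8H23.OR.edge_two hr).2⟩

end Pool.Agent.Results.MP_e7cc07_co.PairsInEdges
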